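import Pool.Agent.Q276.CD.Stm2

set_option autoImplicit false

/-! Project CD: asymptotic facts on the parameters. -/

namespace Pool.Agent.Q121.CD

open Finset Filter MeasureTheory Pool.Agent.Q276.CD

lemma V_top : Tendsto V atTop atTop := Real.tendsto_log_atTop.comp Real.tendsto_log_atTop

lemma l3_top : Tendsto l3 atTop atTop := Real.tendsto_log_atTop.comp V_top

lemma L_top : Tendsto (fun T : ℝ => Real.log T) atTop atTop := Real.tendsto_log_atTop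

lemma ev_V (K : ℝ) : ∀ᶠ T : ℝ in atTop, K ≤ V T := V_top.eventually_ge_atTop K

lemma ev_l (K : ℝ) : ∀ᶠ T : ℝ in atTop, K ≤ l3 T := l3_top.eventually_ge_atTop K

lemma ev_L (K : ℝ) : ∀ᶠ T : ℝ in atTop, K ≤ Real.log T := L_top.eventually_ge_atTop K

lemma exp_V : ∀ᶠ T : ℝ in atTop, Real.exp (V T) = Real.log T := by
  filter_upwards [ev_L 1] with T hT
  unfold V
  rw [Real.exp_log (by linarith)]

lemma exp_l : ∀ᶠ T : ℝ in atTop, Real.exp (l3 T) = V T := by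
  filter_upwards [ev_V 1] with T hT
  unfold l3
  rw [Real.exp_log (by linarith)]

/-- `log T / V ^ m` tends to infinity -/
lemma LV_top (m : ℕ) : Tendsto (fun T : ℝ => Real.log T / V T ^ m) atTop atTop := by
  have h1 := (Real.tendsto_exp_div_pow_atTop m).comp V_top
  refine h1.congr' ?_
  filter_upwards [exp_V] with T hT
  simp only [Function.comp_apply]
  rw [hT]

lemma ev_LV (m : ℕ) (K : ℝ) : ∀ᶠ T : ℝ in atTop, K ≤ Real.log T / V T ^ m :=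
  (LV_top m).eventually_ge_atTop K

/-- `V / l ^ m` tends to infinity -/
lemma Vl_top (m : ℕ) : Tendsto (fun T : ℝ => V T / l3 T ^ m) atTop atTop := by
  have h1 := (Real.tendsto_exp_div_pow_atTop m).comp l3_top
  refine h1.congr' ?_
  filter_upwards [exp_l] with T hT
  simp only [Function.comp_apply]
  rw [hT]

lemma ev_Vl (m : ℕ) (K : ℝ) : ∀ᶠ T : ℝ in atTop, K ≤ V T / l3 T ^ m :=
  (Vl_top m).eventually_ge_atTop K

lemma l_le_V : ∀ᶠ T : ℝ in atTop, l3 T ≤ V T := by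
  filter_upwards [ev_V 1] with T hT
  unfold l3
  exact (Real.log_le_sub_one_of_pos (by linarith)).trans (by linarith)

/-- the floor of an exponential -/
lemma floor_exp {x : ℝ} (hx : 2 ≤ x) : 3 ≤ ⌊Real.exp x⌋₊ ∧
    (⌊Real.exp x⌋₊ : ℝ) ≤ Real.exp x ∧ Real.log ⌊Real.exp x⌋₊ ≤ x ∧
    x / 2 ≤ Real.log ⌊Real.exp x⌋₊ ∧ Real.log ((⌊Real.exp x⌋₊ + 1 : ℕ) : ℝ) ≤ 2 * x := by
  have h3 : (3:ℝ) ≤ Real.exp x := by
    have := Real.add_one_le_exp x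
    linarith
  have h1 : 3 ≤ ⌊Real.exp x⌋₊ := Nat.le_floor (by exact_mod_cast h3)
  have h2 : (⌊Real.exp x⌋₊ : ℝ) ≤ Real.exp x := Nat.floor_le (Real.exp_pos x).le
  have h4 : Real.exp x < ⌊Real.exp x⌋₊ + 1 := Nat.lt_floor_add_one _
  have hn3 : (3:ℝ) ≤ (⌊Real.exp x⌋₊ : ℝ) := by exact_mod_cast h1
  have hl2 : Real.log 2 ≤ 1 := by
    have := Real.log_two_lt_d9
    linarith
  refine ⟨h1, h2, ?_, ?_, ?_⟩
  · rw [Real.log_le_iff_le_exp (by linarith)]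
    exact h2
  · have h5 : Real.exp x / 2 ≤ (⌊Real.exp x⌋₊ : ℝ) := by linarith
    have h6 : Real.log (Real.exp x / 2) ≤ Real.log ⌊Real.exp x⌋₊ :=
      Real.log_le_log (by positivity) h5
    rw [Real.log_div (Real.exp_pos x).ne' two_ne_zero, Real.log_exp] at h6
    linarith
  · have h5 : ((⌊Real.exp x⌋₊ + 1 : ℕ) : ℝ) ≤ Real.exp x * 2 := by
      push_cast
      linarith
    have h6 : Real.log ((⌊Real.exp x⌋₊ + 1 : ℕ) : ℝ) ≤ Real.log (Real.exp x * 2) :=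
      Real.log_le_log (by positivity) h5
    rw [Real.log_mul (Real.exp_pos x).ne' two_ne_zero, Real.log_exp] at h6
    linarith

lemma log_y0 : ∀ᶠ T : ℝ in atTop, Real.log (y0 T) ≤ 2 * (Real.log T / V T ^ 4) ∧ 3 ≤ y0 T := by
  filter_upwards [ev_LV 4 2] with T hT
  obtain ⟨h1, _, _, _, h5⟩ := floor_exp hT
  exact ⟨h5, by unfold y0; omega⟩

lemma log_y1 : ∀ᶠ T : ℝ in atTop, Real.log (y1 T) ≤ 2 * (Real.log T / l3 T ^ 3) ∧ 3 ≤ y1 T := by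
  filter_upwards [ev_LV 3 2, l_le_V, ev_l 1, ev_L 1] with T hT h2 h3 h4
  have h5 : 2 ≤ Real.log T / l3 T ^ 3 := by
    refine hT.trans ?_
    exact div_le_div_of_nonneg_left (by linarith) (by positivity)
      (pow_le_pow_left₀ (by linarith) h2 3)
  obtain ⟨h1, _, _, _, h5⟩ := floor_exp h5
  exact ⟨h5, by unfold y1; omega⟩

lemma y01 : ∀ᶠ T : ℝ in atTop, y0 T ≤ y1 T := by
  filter_upwards [l_le_V, ev_l 1, ev_L 1, ev_V 1] with T h2 h3 h4 h5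
  unfold y0 y1
  refine Nat.add_le_add_right (Nat.floor_le_floor (Real.exp_le_exp.mpr ?_)) 1
  refine div_le_div_of_nonneg_left (by linarith) (by positivity) ?_
  calc l3 T ^ 3 ≤ V T ^ 3 := pow_le_pow_left₀ (by linarith) h2 3
    _ ≤ V T ^ 4 := pow_le_pow_right₀ h5 (by norm_num)

lemma d0_bd : ∀ᶠ T : ℝ in atTop, V T ^ 2 ≤ (d0 T : ℝ) ∧ (d0 T : ℝ) ≤ 2 * V T ^ 2 := by
  filter_upwards [ev_V 1] with T h
  unfold d0
  refine ⟨Nat.le_ceil _, (Nat.ceil_lt_add_one (by positivity)).le.trans ?_⟩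
  nlinarith

lemma d1_bd : ∀ᶠ T : ℝ in atTop, l3 T ^ 2 ≤ (d1 T : ℝ) ∧ (d1 T : ℝ) ≤ 2 * l3 T ^ 2 := by
  filter_upwards [ev_l 1] with T h
  unfold d1
  refine ⟨Nat.le_ceil _, (Nat.ceil_lt_add_one (by positivity)).le.trans ?_⟩
  nlinarith

/-- the logarithm of the length -/
lemma len_log : ∀ᶠ T : ℝ in atTop, 2 * (d0 T : ℝ) * Real.log (y0 T) +
    (d1 T : ℝ) * Real.log (y1 T) ≤ Real.log T / 40 := by
  filter_upwards [log_y0, log_y1, d0_bd, d1_bd, ev_l 640, ev_V 40, ev_L 1] with T h1 h2 h3 h4 h5 h6 h7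
  have a1 : 2 * (d0 T : ℝ) * Real.log (y0 T) ≤ 2 * (2 * V T ^ 2) * (2 * (Real.log T / V T ^ 4)) := by
    refine mul_le_mul (by linarith [h3.2]) h1.1 (Real.log_nonneg ?_) (by positivity)
    have : (3:ℝ) ≤ (y0 T : ℝ) := by exact_mod_cast h1.2
    linarith
  have a2 : (d1 T : ℝ) * Real.log (y1 T) ≤ (2 * l3 T ^ 2) * (2 * (Real.log T / l3 T ^ 3)) := by
    refine mul_le_mul h4.2 h2.1 (Real.log_nonneg ?_) (by positivity)
    have : (3:ℝ) ≤ (y1 T : ℝ) := by exact_mod_cast h2.2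
    linarith
  have hV : (0:ℝ) < V T := by linarith
  have hl : (0:ℝ) < l3 T := by linarith
  have hL : (0:ℝ) < Real.log T := by linarith
  have e1 : 2 * (2 * V T ^ 2) * (2 * (Real.log T / V T ^ 4)) = 8 * Real.log T / V T ^ 2 := by
    field_simp
    ring
  have e2 : (2 * l3 T ^ 2) * (2 * (Real.log T / l3 T ^ 3)) = 4 * Real.log T / l3 T := by
    field_simp
    ring
  have b1 : 8 * Real.log T / V T ^ 2 ≤ Real.log T / 80 := by
    rw [div_le_div_iff₀ (by positivity) (by norm_num)]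
    have : (640:ℝ) ≤ V T ^ 2 := by nlinarith
    nlinarith
  have b2 : 4 * Real.log T / l3 T ≤ Real.log T / 80 := by
    rw [div_le_div_iff₀ hl (by norm_num)]
    nlinarith
  rw [e1] at a1
  rw [e2] at a2
  linarith

/-- the common length -/
lemma y2_bd : ∀ᶠ T : ℝ in atTop, (y2 T : ℝ) ≤ T ^ ((1:ℝ) / 20) ∧
    T ^ ((1:ℝ) / 40) ≤ (y2 T : ℝ) ∧ 3 ≤ y2 T ∧ 1 ≤ T := by
  filter_upwards [ev_L 120, eventually_ge_atTop 1] with T h1 hT1
  have hT : 0 < T := by linarith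
  have e1 : T ^ ((1:ℝ) / 20) = Real.exp (Real.log T / 20) := by
    rw [Real.rpow_def_of_pos hT]
    ring_nf
  have e2 : T ^ ((1:ℝ) / 40) = Real.exp (Real.log T / 40) := by
    rw [Real.rpow_def_of_pos hT]
    ring_nf
  have h2 : y2 T = ⌊Real.exp (Real.log T / 20)⌋₊ := by unfold y2; rw [e1]
  obtain ⟨a1, a2, a3, a4, a5⟩ := floor_exp (x := Real.log T / 20) (by linarith)
  rw [e1, e2, h2]
  refine ⟨a2, ?_, a1, hT1⟩
  have h3 : (0:ℝ) < (⌊Real.exp (Real.log T / 20)⌋₊ : ℝ) := by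
    have : (3:ℝ) ≤ (⌊Real.exp (Real.log T / 20)⌋₊ : ℝ) := by exact_mod_cast a1
    linarith
  rw [← Real.le_log_iff_exp_le h3]
  linarith

lemma len_le : ∀ᶠ T : ℝ in atTop, y0 T ^ (2 * d0 T) * y1 T ^ d1 T ≤ y2 T := by
  filter_upwards [len_log, y2_bd, log_y0, log_y1, eventually_ge_atTop 1] with T h1 h2 h3 h4 h5
  have hT : 0 < T := by linarith
  have e2 : T ^ ((1:ℝ) / 40) = Real.exp (Real.log T / 40) := by
    rw [Real.rpow_def_of_pos hT]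
    ring_nf
  have p0 : (0:ℝ) < (y0 T : ℝ) := by
    have : (3:ℝ) ≤ (y0 T : ℝ) := by exact_mod_cast h3.2
    linarith
  have p1 : (0:ℝ) < (y1 T : ℝ) := by
    have : (3:ℝ) ≤ (y1 T : ℝ) := by exact_mod_cast h4.2
    linarith
  have h6 : ((y0 T ^ (2 * d0 T) * y1 T ^ d1 T : ℕ) : ℝ) ≤ T ^ ((1:ℝ) / 40) := by
    rw [e2]
    push_cast
    rw [← Real.log_le_iff_le_exp (by positivity), Real.log_mul (by positivity) (by positivity),
      Real.log_pow, Real.log_pow]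
    push_cast
    linarith
  exact_mod_cast h6.trans h2.2.1

lemma y1_le_y2 : ∀ᶠ T : ℝ in atTop, y1 T ≤ y2 T := by
  filter_upwards [len_le, log_y0, d1_bd, ev_l 1] with T h1 h2 h3 h4
  have hd : d1 T ≠ 0 := by
    intro h
    have := h3.1
    rw [h, Nat.cast_zero] at this
    nlinarith
  calc y1 T ≤ y1 T ^ d1 T := Nat.le_self_pow hd _
    _ ≤ y0 T ^ (2 * d0 T) * y1 T ^ d1 T := by
      refine Nat.le_mul_of_pos_left _ (Nat.pow_pos (by omega))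
    _ ≤ y2 T := h1

/-- the error of the mean value theorem -/
lemma y2_pow (K : ℝ) : ∀ᶠ T : ℝ in atTop, K * (y2 T : ℝ) ^ 7 ≤ T := by
  have h0 : ∀ᶠ T : ℝ in atTop, |K| ≤ T ^ ((1:ℝ) / 2) :=
    (tendsto_rpow_atTop (by norm_num)).eventually_ge_atTop _
  filter_upwards [y2_bd, h0, eventually_ge_atTop 1] with T h1 h2 h3
  have hT : 0 < T := by linarith
  have h4 : (y2 T : ℝ) ^ 7 ≤ T ^ ((1:ℝ) / 2) := by
    calc (y2 T : ℝ) ^ 7 ≤ (T ^ ((1:ℝ) / 20)) ^ 7 := pow_le_pow_left₀ (Nat.cast_nonneg _) h1.1 7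
      _ = T ^ ((7:ℝ) / 20) := by
        rw [← Real.rpow_natCast, ← Real.rpow_mul hT.le]
        norm_num
      _ ≤ T ^ ((1:ℝ) / 2) := Real.rpow_le_rpow_of_exponent_le h3 (by norm_num)
  calc K * (y2 T : ℝ) ^ 7 ≤ |K| * (y2 T : ℝ) ^ 7 :=
        mul_le_mul_of_nonneg_right (le_abs_self K) (by positivity)
    _ ≤ T ^ ((1:ℝ) / 2) * T ^ ((1:ℝ) / 2) := mul_le_mul h2 h4 (by positivity) (by positivity)
    _ = T := by
      rw [← Real.rpow_add hT]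
      norm_num

lemma y2_pow3 (K : ℝ) : ∀ᶠ T : ℝ in atTop, K * (y2 T : ℝ) ^ 3 ≤ T := by
  filter_upwards [y2_pow |K|, y2_bd] with T h1 h2
  have h3 : (1:ℝ) ≤ (y2 T : ℝ) := by exact_mod_cast (by omega : 1 ≤ y2 T)
  calc K * (y2 T : ℝ) ^ 3 ≤ |K| * (y2 T : ℝ) ^ 3 :=
        mul_le_mul_of_nonneg_right (le_abs_self K) (by positivity)
    _ ≤ |K| * (y2 T : ℝ) ^ 7 :=
        mul_le_mul_of_nonneg_left (pow_le_pow_right₀ h3 (by norm_num)) (abs_nonneg K)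
    _ ≤ T := h1

/-- the sums of the reciprocals of the primes -/
lemma R1_facts : ∃ C : ℝ, 0 ≤ C ∧ ∀ᶠ T : ℝ in atTop, R1 (y0 T) ≤ V T ∧ R1 (y2 T + 1) ≤ V T + C ∧
    Dl (y0 T) (y2 T + 1) ≤ 4 * l3 T + C ∧ Dl (y0 T) (y1 T) ≤ 4 * l3 T + C := by
  obtain ⟨C, hC0, hC⟩ := R1_bd
  refine ⟨2 * C + 1, by linarith, ?_⟩
  filter_upwards [ev_LV 4 2, ev_V 2, ev_l C, y2_bd, ev_L 120, y01, y1_le_y2] with T h1 h2 h3 h4 h5 h6 h7
  have hL : 0 < Real.log T := by linarith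
  have hV : 0 < V T := by linarith
  obtain ⟨a1, a2, a3, a4, a5⟩ := floor_exp h1
  have hlog : Real.log (Real.log T / V T ^ 4) = V T - 4 * l3 T := by
    rw [Real.log_div hL.ne' (by positivity), Real.log_pow]
    rfl
  have b1 := abs_le.mp (hC _ a1)
  have hy0 : y0 T = ⌊Real.exp (Real.log T / V T ^ 4)⌋₊ + 1 := rfl
  rw [← hy0] at b1
  have hx : 0 < Real.log T / V T ^ 4 := by linarith
  have c1 : Real.log (Real.log ⌊Real.exp (Real.log T / V T ^ 4)⌋₊) ≤ V T - 4 * l3 T := by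
    rw [← hlog]
    exact Real.log_le_log (by linarith) a3
  have hl2 : Real.log 2 ≤ 1 := by
    have := Real.log_two_lt_d9
    linarith
  have c2 : V T - 4 * l3 T - 1 ≤ Real.log (Real.log ⌊Real.exp (Real.log T / V T ^ 4)⌋₊) := by
    have := Real.log_le_log (by positivity) a4
    rw [Real.log_div hx.ne' two_ne_zero, hlog] at this
    linarith
  have hT : 0 < T := by linarith
  have hy2l : Real.log (y2 T) ≤ Real.log T / 20 := by
    have h0 : (0:ℝ) < (y2 T : ℝ) := by exact_mod_cast (by omega : 0 < y2 T)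
    have := Real.log_le_log h0 h4.1
    rwa [Real.log_rpow hT, one_div, inv_mul_eq_div] at this
  have b2 := abs_le.mp (hC _ h4.2.2.1)
  have c3 : Real.log (Real.log (y2 T)) ≤ V T := by
    have h0 : 0 < Real.log (y2 T) := by
      apply Real.log_pos
      exact_mod_cast (by omega : 1 < y2 T)
    exact Real.log_le_log h0 (by linarith)
  have d1 : R1 (y0 T) ≤ V T := by linarith
  have d2 : R1 (y2 T + 1) ≤ V T + (2 * C + 1) := by linarith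
  have d3 : Dl (y0 T) (y2 T + 1) ≤ 4 * l3 T + (2 * C + 1) := by
    unfold Dl
    linarith
  refine ⟨d1, d2, d3, ?_⟩
  refine le_trans ?_ d3
  unfold Dl
  have := R1_mono (h7.trans (Nat.le_succ (y2 T)))
  linarith

/-- the mean value theorem, upper bound -/
lemma mv_app (h : P_MVC) {a : ℕ → ℂ} {Y : ℕ} {T A B : ℝ} (hT : 0 ≤ T)
    (h1 : ∀ n ∈ Icc 1 Y, ‖a n‖ ≤ A) (h2 : ∑ n ∈ Icc 1 Y, ‖a n‖ ^ 2 / (n:ℝ) ≤ B) :
    ∫ t in (T / 4)..(8 * T), ‖Dp a Y (cl t)‖ ^ 2 ≤ 8 * T * B + 4 * (Y : ℝ) ^ 3 * A ^ 2 := by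
  have h3 := h a Y (T / 4) (8 * T) (by linarith)
  have h4 := (abs_le.mp h3).2
  have h5 : ∑ n ∈ Icc 1 Y, ‖a n‖ ≤ Y * A := by
    refine (sum_le_sum h1).trans ?_
    rw [sum_const, nsmul_eq_mul, Nat.card_Icc]
    simp
  have h6 : (∑ n ∈ Icc 1 Y, ‖a n‖) ^ 2 ≤ (Y * A) ^ 2 :=
    pow_le_pow_left₀ (sum_nonneg fun _ _ => norm_nonneg _) h5 2
  have h7 : 0 ≤ ∑ n ∈ Icc 1 Y, ‖a n‖ ^ 2 / (n:ℝ) := sum_nonneg fun _ _ => by positivity
  have h8 : (8 * T - T / 4) * ∑ n ∈ Icc 1 Y, ‖a n‖ ^ 2 / (n:ℝ) ≤ 8 * T * B := by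
    calc (8 * T - T / 4) * ∑ n ∈ Icc 1 Y, ‖a n‖ ^ 2 / (n:ℝ) ≤
          (8 * T) * ∑ n ∈ Icc 1 Y, ‖a n‖ ^ 2 / (n:ℝ) :=
          mul_le_mul_of_nonneg_right (by linarith) h7
      _ ≤ 8 * T * B := mul_le_mul_of_nonneg_left h2 (by linarith)
  have h9 : 4 * (Y:ℝ) * (∑ n ∈ Icc 1 Y, ‖a n‖) ^ 2 ≤ 4 * (Y:ℝ) ^ 3 * A ^ 2 := by
    calc 4 * (Y:ℝ) * (∑ n ∈ Icc 1 Y, ‖a n‖) ^ 2 ≤ 4 * (Y:ℝ) * (Y * A) ^ 2 :=
          mul_le_mul_of_nonneg_left h6 (by positivity)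
      _ = 4 * (Y:ℝ) ^ 3 * A ^ 2 := by ring
  linarith

/-- a finite sum of squares is at most the sum of a majorant over the smooth numbers -/
lemma sum_le_SS {N Y : ℕ} {g : ℕ → ℝ} (hg : Sb N g) (hg0 : ∀ n ∈ Nat.smoothNumbers N, 0 ≤ g n)
    {a : ℕ → ℂ} (h : ∀ n ∈ Icc 1 Y, a n ≠ 0 → n ∈ Nat.smoothNumbers N ∧ ‖a n‖ ^ 2 ≤ g n) :
    ∑ n ∈ Icc 1 Y, ‖a n‖ ^ 2 / (n:ℝ) ≤ SS N g := by
  classical
  refine le_trans ?_ (fin_le_SS hg hg0 (F := (Icc 1 Y).filter (fun n => a n ≠ 0)) ?_)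
  · rw [sum_filter]
    refine sum_le_sum fun n hn => ?_
    split_ifs with h1
    · exact div_le_div_of_nonneg_right (h n hn h1).2 (Nat.cast_nonneg n)
    · rw [not_not] at h1
      rw [h1]
      simp
  · intro n hn
    rw [mem_filter] at hn
    exact (h n hn.1 hn.2).1

end Pool.Agent.Q121.CD
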