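import Pool.Agent.Q121.CD.Com

set_option autoImplicit false

/-! Project CD: the jobs M1, M4, M6. -/

namespace Pool.Agent.Q121.CD

open Finset Filter MeasureTheory Pool.Agent.Q276.CD

section
variable {k : ℝ} {N d : ℕ}

lemma aI_sq_le (n : ℕ) (h : aI k N d n ≠ 0) :
    n ∈ Nat.smoothNumbers N ∧ Ob 0 N n ≤ d ∧ aI k N d n ^ 2 ≤ mf (wm k 2 N) n := by
  classical
  rw [aI_apply] at h ⊢
  by_cases hc : n ∈ Nat.smoothNumbers N ∧ Ob 0 N n ≤ d
  · refine ⟨hc.1, hc.2, ?_⟩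
    rw [if_pos hc]
    have e : mf (ek k) n = mf (wl k N) n := by
      refine mf_congr fun p hp => ?_
      rw [Nat.mem_primeFactors] at hp
      unfold wl
      rw [if_pos ((sm_iff.mp hc.1).2 p hp.1 hp.2.1)]
    rw [e]
    exact wl_sq_le n
  · rw [if_neg hc] at h
    exact absurd rfl h

lemma norm_ofReal_sq (x : ℝ) : ‖(x : ℂ)‖ ^ 2 = x ^ 2 := by
  rw [Complex.norm_real, Real.norm_eq_abs, sq_abs]

end

/-- JOB M1. -/
theorem t_M1 (h : P_MVC) : P_M1 := by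
  obtain ⟨C, hC, hR⟩ := R1_facts
  refine ⟨9, by norm_num, ?_⟩
  filter_upwards [hR, y2_pow3 4, eventually_ge_atTop 1, ev_V 0] with T hT h2 h3 hV k hk0 hk1
  have hk : |k| ≤ 1 := abs_le.mpr ⟨by linarith, hk1⟩
  obtain ⟨w1, w2⟩ := wm_bound (k := k) (m := 2) (le_refl (y0 T))
  have hDl : Dl (y0 T) (y0 T) = 0 := by unfold Dl; ring
  rw [hDl, mul_zero, add_zero] at w2
  have hB : ∑ n ∈ Icc 1 (y2 T), ‖((aI k (y0 T) (d0 T) n : ℝ) : ℂ)‖ ^ 2 / (n:ℝ) ≤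
      SS (y0 T) (mf (wm k 2 (y0 T))) := by
    refine sum_le_SS w1 (fun n _ => mf_nonneg wm_nonneg n) fun n _ hne => ?_
    have hne' : aI k (y0 T) (d0 T) n ≠ 0 := fun h0 => hne (by rw [h0]; simp)
    obtain ⟨a1, _, a3⟩ := aI_sq_le n hne'
    exact ⟨a1, by rw [norm_ofReal_sq]; exact a3⟩
  have h4 := mv_app h (a := fun n => ((aI k (y0 T) (d0 T) n : ℝ) : ℂ)) (Y := y2 T) (T := T)
    (A := 1) (B := Real.exp (k ^ 2 * V T)) (by linarith)
    (fun n _ => by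
      rw [Complex.norm_real, Real.norm_eq_abs]
      exact aI_abs hk n)
    (hB.trans (w2.trans (Real.exp_le_exp.mpr (mul_le_mul_of_nonneg_left hT.1 (sq_nonneg k)))))
  refine h4.trans ?_
  have h5 : 1 ≤ Real.exp (k ^ 2 * V T) := Real.one_le_exp (by positivity)
  nlinarith

lemma cM_sq_le {k : ℝ} {N0 d0 N1 d1 n : ℕ} (hk0 : 0 ≤ k) (hk1 : k ≤ 1) (h01 : N0 ≤ N1)
    (hn : n ≠ 0) : cM k N0 d0 N1 d1 n ^ 2 ≤ mf (wm k 2 N0) n + rr ^ (-(d0 : ℝ)) * mf (tm 4) n := by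
  have hk : |k| ≤ 1 := abs_le.mpr ⟨by linarith, hk1⟩
  have hr : 0 < rr := rr_pos
  have hr1 : 1 ≤ rr := one_le_rr
  have n1 : 0 ≤ mf (wm k 2 N0) n := mf_nonneg wm_nonneg n
  have n2 : 0 ≤ rr ^ (-(d0 : ℝ)) * mf (tm 4) n :=
    mul_nonneg (Real.rpow_nonneg hr.le _) (mf_nonneg (tm_nonneg 4) n)
  by_cases ho : Ob 0 N0 n ≤ d0
  · have h1 : cM k N0 d0 N1 d1 n ^ 2 ≤ mf (wl k N0) n ^ 2 := by
      rw [← sq_abs (cM k N0 d0 N1 d1 n)]
      exact pow_le_pow_left₀ (abs_nonneg _) (cM_le hk0 h01 hn ho) 2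
    have h2 := wl_sq_le (k := k) (N0 := N0) n
    linarith
  · push Not at ho
    have h1 : cM k N0 d0 N1 d1 n ^ 2 ≤ tau n ^ 4 := by
      rw [← sq_abs (cM k N0 d0 N1 d1 n)]
      calc |cM k N0 d0 N1 d1 n| ^ 2 ≤ (tau n ^ 2) ^ 2 :=
            pow_le_pow_left₀ (abs_nonneg _) (cM_abs hk hn) 2
        _ = tau n ^ 4 := by ring
    have h2 := tau_pow_Ob 4 0 N0 n
    have h3 : 1 ≤ rr ^ (-(d0 : ℝ)) * rr ^ Ob 0 N0 n := by
      rw [← Real.rpow_natCast rr (Ob 0 N0 n), ← Real.rpow_add hr]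
      apply Real.one_le_rpow hr1
      have : (d0 : ℝ) ≤ (Ob 0 N0 n : ℝ) := by exact_mod_cast ho.le
      linarith
    have h4 : tau n ^ 4 ≤ rr ^ (-(d0 : ℝ)) * mf (tm 4) n := by
      calc tau n ^ 4 = 1 * tau n ^ 4 := (one_mul _).symm
        _ ≤ (rr ^ (-(d0 : ℝ)) * rr ^ Ob 0 N0 n) * tau n ^ 4 :=
            mul_le_mul_of_nonneg_right h3 (by positivity)
        _ = rr ^ (-(d0 : ℝ)) * (tau n ^ 4 * rr ^ Ob 0 N0 n) := by ring
        _ ≤ _ := mul_le_mul_of_nonneg_left h2 (Real.rpow_nonneg hr.le _)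
    linarith

lemma log_rr : (1:ℝ) / 10 ≤ Real.log rr := by
  have h := Real.one_sub_inv_le_log_of_pos rr_pos
  unfold rr at h ⊢
  norm_num at h ⊢
  linarith

/-- the tail beyond `d0` prime factors is negligible -/
lemma rr_small (K C : ℝ) : ∀ᶠ T : ℝ in atTop,
    rr ^ (-(d0 T : ℝ)) * Real.exp (K * (V T + C)) ≤ Real.exp (-V T) := by
  filter_upwards [d0_bd, ev_V (1 + |C|), ev_V (10 * (2 * |K| + 1))] with T h1 h2 h3
  have hV : 1 ≤ V T := by linarith [abs_nonneg C]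
  rw [Real.rpow_def_of_pos rr_pos, ← Real.exp_add, Real.exp_le_exp]
  have h4 : K * (V T + C) ≤ 2 * |K| * V T := by
    calc K * (V T + C) ≤ |K * (V T + C)| := le_abs_self _
      _ = |K| * |V T + C| := abs_mul _ _
      _ ≤ |K| * (2 * V T) := by
          refine mul_le_mul_of_nonneg_left ?_ (abs_nonneg K)
          calc |V T + C| ≤ |V T| + |C| := abs_add_le _ _
            _ ≤ 2 * V T := by rw [abs_of_nonneg (by linarith)]; linarith
      _ = 2 * |K| * V T := by ring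
  have h5 : Real.log rr * -(d0 T : ℝ) ≤ -(V T ^ 2 / 10) := by
    have h6 : V T ^ 2 / 10 ≤ Real.log rr * (d0 T : ℝ) := by
      calc V T ^ 2 / 10 = (1 / 10) * V T ^ 2 := by ring
        _ ≤ Real.log rr * (d0 T : ℝ) :=
            mul_le_mul log_rr h1.1 (sq_nonneg _) (by linarith [log_rr])
    linarith
  have h7 : (2 * |K| + 1) * V T ≤ V T ^ 2 / 10 := by nlinarith
  linarith

lemma tau_le {n : ℕ} : tau n ≤ n ∨ n = 0 := by
  by_cases h : n = 0
  · exact Or.inr h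
  · left
    rw [tau_eq h]
    exact_mod_cast Nat.card_divisors_le_self n

lemma smooth_Icc {n Y : ℕ} (hn : n ∈ Icc 1 Y) : n ∈ Nat.smoothNumbers (Y + 1) := by
  rw [mem_Icc] at hn
  rw [sm_iff]
  refine ⟨by omega, fun p _ hd => ?_⟩
  have := Nat.le_of_dvd (by omega) hd
  omega

lemma V_rpow {T : ℝ} (hV : 1 ≤ V T) (K : ℝ) : V T ^ K = Real.exp (K * l3 T) := by
  rw [Real.rpow_def_of_pos (by linarith)]
  unfold l3
  rw [mul_comm]

/-- JOB M4. -/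
theorem t_M4 (h : P_MVC) : P_M4 := by
  obtain ⟨C, hC, hR⟩ := R1_facts
  have hK2 := Km_nonneg 2
  have hK4 := Km_nonneg 4
  refine ⟨4 * Km 2 + 1, by linarith, ?_⟩
  filter_upwards [hR, y2_pow 4, eventually_ge_atTop 1, ev_V 1, y01, rr_small (Km 4) C, y1_le_y2,
    ev_V (9 + 8 * Real.exp (Km 2 * C)), y2_bd] with T hT h2 h3 hV h01 hrr h12 hV2 hy2 k hk0 hk1
  have hk : |k| ≤ 1 := abs_le.mpr ⟨by linarith, hk1⟩
  have hle : y0 T ≤ y2 T + 1 := by omega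
  obtain ⟨w1, w2⟩ := wm_bound (k := k) (m := 2) hle
  obtain ⟨t1, t2⟩ := tm_bound 4 (y2 T + 1)
  have hrp : 0 ≤ rr ^ (-(d0 T : ℝ)) := Real.rpow_nonneg rr_pos.le _
  have hB : ∑ n ∈ Icc 1 (y2 T), ‖((cM k (y0 T) (d0 T) (y1 T) (d1 T) n : ℝ) : ℂ)‖ ^ 2 / (n:ℝ) ≤
      SS (y2 T + 1) (fun n => mf (wm k 2 (y0 T)) n + rr ^ (-(d0 T : ℝ)) * mf (tm 4) n) := by
    refine sum_le_SS (w1.add (t1.const_mul _)) (fun n _ => ?_) fun n hn _ => ?_
    · exact add_nonneg (mf_nonneg wm_nonneg n) (mul_nonneg hrp (mf_nonneg (tm_nonneg 4) n))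
    · refine ⟨smooth_Icc hn, ?_⟩
      rw [norm_ofReal_sq]
      rw [mem_Icc] at hn
      exact cM_sq_le hk0 hk1 h01 (by omega)
  rw [SS_add w1 (t1.const_mul _), SS_const_mul] at hB
  have hE : 1 ≤ Real.exp (k ^ 2 * V T) := Real.one_le_exp (by positivity)
  have hVK : 1 ≤ V T ^ (4 * Km 2) := Real.one_le_rpow hV (by linarith)
  have b1 : SS (y2 T + 1) (mf (wm k 2 (y0 T))) ≤
      Real.exp (k ^ 2 * V T) * V T ^ (4 * Km 2) * Real.exp (Km 2 * C) := by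
    refine w2.trans ?_
    rw [V_rpow hV, ← Real.exp_add, ← Real.exp_add, Real.exp_le_exp]
    have e1 : k ^ 2 * R1 (y0 T) ≤ k ^ 2 * V T := mul_le_mul_of_nonneg_left hT.1 (sq_nonneg k)
    have e2 : Km 2 * Dl (y0 T) (y2 T + 1) ≤ Km 2 * (4 * l3 T + C) :=
      mul_le_mul_of_nonneg_left hT.2.2.1 hK2
    linarith
  have b2 : rr ^ (-(d0 T : ℝ)) * SS (y2 T + 1) (mf (tm 4)) ≤ 1 := by
    calc rr ^ (-(d0 T : ℝ)) * SS (y2 T + 1) (mf (tm 4)) ≤
          rr ^ (-(d0 T : ℝ)) * Real.exp (Km 4 * (V T + C)) := by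
          refine mul_le_mul_of_nonneg_left (t2.trans ?_) hrp
          exact Real.exp_le_exp.mpr (mul_le_mul_of_nonneg_left hT.2.1 hK4)
      _ ≤ Real.exp (-V T) := hrr
      _ ≤ 1 := Real.exp_le_one_iff.mpr (by linarith)
  have hA : ∀ n ∈ Icc 1 (y2 T), ‖((cM k (y0 T) (d0 T) (y1 T) (d1 T) n : ℝ) : ℂ)‖ ≤
      (y2 T : ℝ) ^ 2 := by
    intro n hn
    rw [mem_Icc] at hn
    rw [Complex.norm_real, Real.norm_eq_abs]
    refine (cM_abs hk (by omega)).trans (pow_le_pow_left₀ (tau_nonneg n) ?_ 2)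
    rcases tau_le (n := n) with h5 | h5
    · exact h5.trans (by exact_mod_cast hn.2)
    · omega
  have h4 := mv_app h (a := fun n => ((cM k (y0 T) (d0 T) (y1 T) (d1 T) n : ℝ) : ℂ)) (Y := y2 T)
    (T := T) (A := (y2 T : ℝ) ^ 2)
    (B := Real.exp (k ^ 2 * V T) * V T ^ (4 * Km 2) * Real.exp (Km 2 * C) + 1) (by linarith) hA
    (hB.trans (add_le_add b1 b2))
  refine h4.trans ?_
  have e3 : 4 * (y2 T : ℝ) ^ 3 * ((y2 T : ℝ) ^ 2) ^ 2 ≤ T := by
    calc 4 * (y2 T : ℝ) ^ 3 * ((y2 T : ℝ) ^ 2) ^ 2 = 4 * (y2 T : ℝ) ^ 7 := by ring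
      _ ≤ T := h2
  have e4 : V T ^ (4 * Km 2 + 1) = V T ^ (4 * Km 2) * V T := by
    rw [Real.rpow_add (by linarith), Real.rpow_one]
  rw [e4]
  have hX : 1 ≤ Real.exp (k ^ 2 * V T) * V T ^ (4 * Km 2) := by nlinarith
  set X := Real.exp (k ^ 2 * V T) * V T ^ (4 * Km 2) with hXd
  have hT0 : 0 ≤ T := by linarith
  have e5 : T * (V T ^ (4 * Km 2) * V T) * Real.exp (k ^ 2 * V T) = T * X * V T := by
    rw [hXd]; ring
  rw [e5]
  have e6 : T * X * (9 + 8 * Real.exp (Km 2 * C)) ≤ T * X * V T :=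
    mul_le_mul_of_nonneg_left hV2 (by positivity)
  have e7 : T ≤ T * X := by nlinarith
  nlinarith

/-- JOB M6. -/
theorem t_M6 (h : P_MVC) : P_M6 := by
  obtain ⟨C, hC, hR⟩ := R1_facts
  refine ⟨576, by norm_num, ?_⟩
  filter_upwards [hR, y2_pow3 4, eventually_ge_atTop 1, ev_V 4, log_y0, d0_bd, ev_L 1] with T hT h2 h3
    hV hl0 hd0 hL k hk0 hk1 z hz
  have hk : |k| ≤ 1 := abs_le.mpr ⟨by linarith, hk1⟩
  have hV0 : 0 < V T := by linarith
  set δ : ℝ := 8 * (‖z‖ * Real.log T) / V T ^ 2 with hδ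
  have hδ0 : 0 ≤ δ := by positivity
  obtain ⟨w1, w2⟩ := wm_bound (k := k) (m := 2) (le_refl (y0 T))
  have hDl : Dl (y0 T) (y0 T) = 0 := by unfold Dl; ring
  rw [hDl, mul_zero, add_zero] at w2
  set b : ℕ → ℂ := fun n => ((aI k (y0 T) (d0 T) n : ℝ) : ℂ) * ((n : ℂ) ^ (-z) - 1) with hb
  have hbn : ∀ n ∈ Icc 1 (y2 T), ‖b n‖ ≤ δ * |aI k (y0 T) (d0 T) n| := by
    intro n hn
    rw [mem_Icc] at hn
    have hn0 : (n : ℂ) ≠ 0 := by
      have : n ≠ 0 := by omega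
      exact_mod_cast this
    rw [hb]
    dsimp only
    rw [norm_mul, Complex.norm_real, Real.norm_eq_abs, mul_comm]
    by_cases hne : aI k (y0 T) (d0 T) n = 0
    · rw [hne]
      simp
    · obtain ⟨a1, a2, _⟩ := aI_sq_le n hne
      refine mul_le_mul_of_nonneg_right ?_ (abs_nonneg _)
      have hlog : Real.log n ≤ 4 * Real.log T / V T ^ 2 := by
        have h5 := log_le_Ob a1
        have h6 : (Ob 0 (y0 T) n : ℝ) ≤ 2 * V T ^ 2 := by
          have : (Ob 0 (y0 T) n : ℝ) ≤ (d0 T : ℝ) := by exact_mod_cast a2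
          linarith [hd0.2]
        have h7 : 0 ≤ Real.log (y0 T) := Real.log_nonneg (by
          have : (3:ℝ) ≤ (y0 T : ℝ) := by exact_mod_cast hl0.2
          linarith)
        calc Real.log n ≤ Ob 0 (y0 T) n * Real.log (y0 T) := h5
          _ ≤ (2 * V T ^ 2) * (2 * (Real.log T / V T ^ 4)) :=
              mul_le_mul h6 hl0.1 h7 (by positivity)
          _ = 4 * Real.log T / V T ^ 2 := by
              field_simp
              ring
      have hlog0 : 0 ≤ Real.log n := Real.log_nonneg (by exact_mod_cast hn.1)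
      have e1 : (n : ℂ) ^ (-z) = Complex.exp (-(z * (Real.log n : ℂ))) := by
        rw [Complex.cpow_def_of_ne_zero hn0, ← Complex.natCast_log]
        congr 1
        ring
      have e2 : ‖-(z * (Real.log n : ℂ))‖ ≤ ‖z‖ * (4 * Real.log T / V T ^ 2) := by
        rw [norm_neg, norm_mul, Complex.norm_real, Real.norm_eq_abs, abs_of_nonneg hlog0]
        exact mul_le_mul_of_nonneg_left hlog (norm_nonneg z)
      have e3 : ‖z‖ * (4 * Real.log T / V T ^ 2) = δ / 2 := by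
        rw [hδ]
        ring
      have e4 : δ / 2 ≤ 1 := by
        rw [hδ]
        have : 8 * (‖z‖ * Real.log T) / V T ^ 2 ≤ 8 * V T / V T ^ 2 :=
          div_le_div_of_nonneg_right (by linarith) (by positivity)
        have e5 : 8 * V T / V T ^ 2 = 8 / V T := by
          field_simp
        have e6 : 8 / V T ≤ 2 := by
          rw [div_le_iff₀ hV0]
          linarith
        linarith
      rw [e1]
      refine (Complex.norm_exp_sub_one_le ((e2.trans_eq e3).trans e4)).trans ?_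
      linarith [e2.trans_eq e3]
  have hsub : ∀ t : ℝ, AA k T (cl t + z) - AA k T (cl t) = Dp b (y2 T) (cl t) := by
    intro t
    unfold AA Dr Dp
    rw [← sum_sub_distrib]
    refine sum_congr rfl fun n hn => ?_
    rw [mem_Icc] at hn
    have hn0 : (n : ℂ) ≠ 0 := by
      have : n ≠ 0 := by omega
      exact_mod_cast this
    rw [hb]
    dsimp only
    rw [neg_add, Complex.cpow_add _ _ hn0]
    ring
  simp only [hsub]
  have hB : ∑ n ∈ Icc 1 (y2 T), ‖b n‖ ^ 2 / (n:ℝ) ≤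
      SS (y0 T) (fun n => δ ^ 2 * mf (wm k 2 (y0 T)) n) := by
    refine sum_le_SS (w1.const_mul _) (fun n _ => mul_nonneg (sq_nonneg _)
      (mf_nonneg wm_nonneg n)) fun n hn hne => ?_
    have hne' : aI k (y0 T) (d0 T) n ≠ 0 := fun h0 => hne (by rw [hb]; simp [h0])
    obtain ⟨a1, _, a3⟩ := aI_sq_le n hne'
    refine ⟨a1, ?_⟩
    calc ‖b n‖ ^ 2 ≤ (δ * |aI k (y0 T) (d0 T) n|) ^ 2 :=
          pow_le_pow_left₀ (norm_nonneg _) (hbn n hn) 2
      _ = δ ^ 2 * aI k (y0 T) (d0 T) n ^ 2 := by rw [mul_pow, sq_abs]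
      _ ≤ _ := mul_le_mul_of_nonneg_left a3 (sq_nonneg _)
  rw [SS_const_mul] at hB
  have h4 := mv_app h (a := b) (Y := y2 T) (T := T) (A := δ)
    (B := δ ^ 2 * Real.exp (k ^ 2 * V T)) (by linarith)
    (fun n hn => (hbn n hn).trans (mul_le_of_le_one_right hδ0 (aI_abs hk n)))
    (hB.trans (mul_le_mul_of_nonneg_left (w2.trans (Real.exp_le_exp.mpr
      (mul_le_mul_of_nonneg_left hT.1 (sq_nonneg k)))) (sq_nonneg _)))
  refine h4.trans ?_
  have h5 : 1 ≤ Real.exp (k ^ 2 * V T) := Real.one_le_exp (by positivity)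
  have h6 : V T ^ (-(4:ℝ)) = (V T ^ 4)⁻¹ := by
    rw [Real.rpow_neg hV0.le]
    congr 1
    exact_mod_cast Real.rpow_natCast (V T) 4
  have h7 : δ ^ 2 = 64 * (‖z‖ * Real.log T) ^ 2 * (V T ^ 4)⁻¹ := by
    rw [hδ]
    field_simp
    ring
  rw [h6]
  have h8 : 576 * T * Real.exp (k ^ 2 * V T) * (‖z‖ * Real.log T) ^ 2 * (V T ^ 4)⁻¹ =
      9 * T * Real.exp (k ^ 2 * V T) * δ ^ 2 := by
    rw [h7]
    ring
  rw [h8]
  have h9 : 4 * (y2 T : ℝ) ^ 3 * δ ^ 2 ≤ T * δ ^ 2 :=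
    mul_le_mul_of_nonneg_right h2 (sq_nonneg _)
  have h10 : T * δ ^ 2 ≤ T * Real.exp (k ^ 2 * V T) * δ ^ 2 := by
    refine mul_le_mul_of_nonneg_right ?_ (sq_nonneg _)
    nlinarith
  nlinarith

end Pool.Agent.Q121.CD
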