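import Pool.Agent.Q121.CD.M146

set_option autoImplicit false

/-! Project CD: the job M2. -/

namespace Pool.Agent.Q121.CD

open Finset Filter MeasureTheory Pool.Agent.Q276.CD

/-- product of two Dirichlet polynomials with short supports -/
lemma Dr_mul {f g : ArithmeticFunction ℝ} {A B Y : ℕ} (hf : ∀ n, f n ≠ 0 → n ≤ A)
    (hg : ∀ n, g n ≠ 0 → n ≤ B) (hAB : A * B ≤ Y) (s : ℂ) :
    Dr f Y s * Dr g Y s = Dr (f * g) Y s := by
  classical
  unfold Dr Dp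
  rw [sum_mul_sum, ← sum_product']
  set F : ℕ × ℕ → ℂ := fun q => ((f q.1 : ℝ) : ℂ) * (q.1 : ℂ) ^ (-s) *
    (((g q.2 : ℝ) : ℂ) * (q.2 : ℂ) ^ (-s)) with hF
  have h1 : ∑ q ∈ Icc 1 Y ×ˢ Icc 1 Y, F q =
      ∑ q ∈ (Icc 1 Y ×ˢ Icc 1 Y).filter (fun q => q.1 * q.2 ≤ Y), F q := by
    rw [sum_filter]
    refine sum_congr rfl fun q _ => ?_
    split_ifs with h
    · rfl
    · have : f q.1 = 0 ∨ g q.2 = 0 := by
        by_contra hcon
        push Not at hcon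
        exact h ((Nat.mul_le_mul (hf _ hcon.1) (hg _ hcon.2)).trans hAB)
      rcases this with h0 | h0
      · rw [hF]; simp [h0]
      · rw [hF]; simp [h0]
  rw [h1, ← sum_fiberwise_of_maps_to (t := Icc 1 Y) (g := fun q : ℕ × ℕ => q.1 * q.2)]
  · refine sum_congr rfl fun n hn => ?_
    rw [mem_Icc] at hn
    have h2 : ((Icc 1 Y ×ˢ Icc 1 Y).filter (fun q => q.1 * q.2 ≤ Y)).filter
        (fun q => q.1 * q.2 = n) = n.divisorsAntidiagonal := by
      ext ⟨a, b⟩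
      simp only [mem_filter, mem_product, mem_Icc, Nat.mem_divisorsAntidiagonal]
      constructor
      · rintro ⟨⟨_, _⟩, h4⟩
        exact ⟨h4, by omega⟩
      · rintro ⟨h3, h4⟩
        have ha : 1 ≤ a := Nat.one_le_iff_ne_zero.mpr (by rintro rfl; simp at h3; omega)
        have hb : 1 ≤ b := Nat.one_le_iff_ne_zero.mpr (by rintro rfl; simp at h3; omega)
        have ha' : a ≤ a * b := Nat.le_mul_of_pos_right a hb
        have hb' : b ≤ a * b := Nat.le_mul_of_pos_left b ha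
        exact ⟨⟨⟨⟨ha, by omega⟩, ⟨hb, by omega⟩⟩, by omega⟩, h3⟩
    rw [h2]
    dsimp only
    rw [ArithmeticFunction.mul_apply]
    push_cast
    rw [sum_mul]
    refine sum_congr rfl fun q hq => ?_
    rw [Nat.mem_divisorsAntidiagonal] at hq
    rw [hF]
    dsimp only
    have h3 : ((n : ℕ) : ℂ) ^ (-s) = (q.1 : ℂ) ^ (-s) * (q.2 : ℂ) ^ (-s) := by
      rw [← hq.1]
      push_cast
      exact Complex.natCast_mul_natCast_cpow q.1 q.2 (-s)
    rw [h3]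
    ring
  · intro q hq
    rw [mem_filter, mem_product, mem_Icc, mem_Icc] at hq
    rw [mem_Icc]
    exact ⟨Nat.mul_pos hq.1.1.1 hq.1.2.1, hq.2⟩

/-- the logarithm of a number with prime factors in two blocks -/
lemma log_le_two {N0 N1 n : ℕ} (hn : n ∈ Nat.smoothNumbers N1) :
    Real.log n ≤ Ob 0 N0 n * Real.log N0 + Ob N0 N1 n * Real.log N1 := by
  have hn0 := (sm_iff.mp hn).1
  have h1 : Real.log n = ∑ p ∈ n.primeFactors, (n.factorization p : ℝ) * Real.log p := by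
    conv_lhs => rw [← Nat.prod_factorization_pow_eq_self hn0]
    rw [Finsupp.prod]
    push_cast
    rw [Real.log_prod]
    · refine sum_congr rfl fun p _ => ?_
      rw [Real.log_pow]
    · intro p hp
      have : p ≠ 0 := (Nat.prime_of_mem_primeFactors hp).ne_zero
      positivity
  rw [h1, Ob_eq_sum, Ob_eq_sum]
  push_cast
  rw [sum_mul, sum_mul, ← sum_add_distrib]
  refine sum_le_sum fun p hp => ?_
  rw [Nat.mem_primeFactors] at hp
  have h2 := (sm_iff.mp hn).2 p hp.1 hp.2.1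
  by_cases h : p < N0
  · rw [if_pos ⟨Nat.zero_le _, h⟩, if_neg (by omega), zero_mul, add_zero]
    refine mul_le_mul_of_nonneg_left ?_ (Nat.cast_nonneg _)
    exact Real.log_le_log (by exact_mod_cast hp.1.pos) (by exact_mod_cast h.le)
  · rw [if_neg (by omega), if_pos ⟨by omega, h2⟩, zero_mul, zero_add]
    refine mul_le_mul_of_nonneg_left ?_ (Nat.cast_nonneg _)
    exact Real.log_le_log (by exact_mod_cast hp.1.pos) (by exact_mod_cast h2.le)

section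
variable {K : ℝ} {N0 d0 N1 d1 : ℕ}

lemma aI_supp (hN0 : 1 ≤ N0) (n : ℕ) (h : aI K N0 d0 n ≠ 0) : n ≤ N0 ^ d0 := by
  obtain ⟨a1, a2, _⟩ := aI_sq_le n h
  have hn0 : 0 < n := Nat.pos_of_ne_zero (sm_iff.mp a1).1
  have h1 := log_le_Ob a1
  have hl : 0 ≤ Real.log N0 := Real.log_nonneg (by exact_mod_cast hN0)
  have h2 : Real.log n ≤ Real.log ((N0 ^ d0 : ℕ) : ℝ) := by
    push_cast
    rw [Real.log_pow]
    refine h1.trans (mul_le_mul_of_nonneg_right (by exact_mod_cast a2) hl)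
  have h3 : (n : ℝ) ≤ ((N0 ^ d0 : ℕ) : ℝ) := by
    rwa [Real.log_le_log_iff (by exact_mod_cast hn0) (by positivity)] at h2
  exact_mod_cast h3

lemma muM_supp (hN0 : 1 ≤ N0) (hN1 : 1 ≤ N1) (n : ℕ) (h : muM N0 d0 N1 d1 n ≠ 0) :
    n ≤ N0 ^ d0 * N1 ^ d1 := by
  classical
  rw [muM_apply] at h
  by_cases hc : n ∈ Nat.smoothNumbers N1 ∧ Ob 0 N0 n ≤ d0 ∧ Ob N0 N1 n ≤ d1
  · have hn0 : 0 < n := Nat.pos_of_ne_zero (sm_iff.mp hc.1).1
    have h1 := log_le_two (N0 := N0) hc.1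
    have hl0 : 0 ≤ Real.log N0 := Real.log_nonneg (by exact_mod_cast hN0)
    have hl1 : 0 ≤ Real.log N1 := Real.log_nonneg (by exact_mod_cast hN1)
    have h2 : Real.log n ≤ Real.log ((N0 ^ d0 * N1 ^ d1 : ℕ) : ℝ) := by
      push_cast
      rw [Real.log_mul (by positivity) (by positivity), Real.log_pow, Real.log_pow]
      refine h1.trans (add_le_add (mul_le_mul_of_nonneg_right (by exact_mod_cast hc.2.1) hl0)
        (mul_le_mul_of_nonneg_right (by exact_mod_cast hc.2.2) hl1))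
    have h3 : (n : ℝ) ≤ ((N0 ^ d0 * N1 ^ d1 : ℕ) : ℝ) := by
      rwa [Real.log_le_log_iff (by exact_mod_cast hn0) (by positivity)] at h2
    exact_mod_cast h3
  · rw [if_neg hc] at h
    exact absurd rfl h

lemma two_pow_le_fact (j : ℕ) : 2 ^ j ≤ (j + 1).factorial := by
  induction j with
  | zero => simp
  | succ j ih =>
    rw [Nat.factorial_succ, pow_succ, mul_comm]
    exact Nat.mul_le_mul (by omega) ih

lemma ek_le_tl (hK0 : 0 ≤ K) (hK : K ≤ 2) (p j : ℕ) : ek K p j ≤ tl p j := by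
  unfold ek tl
  rw [div_le_iff₀ (by positivity)]
  calc K ^ j ≤ 2 ^ j := pow_le_pow_left₀ hK0 hK j
    _ ≤ ((j + 1).factorial : ℝ) := by exact_mod_cast two_pow_le_fact j
    _ = ((j : ℝ) + 1) * j.factorial := by
      rw [Nat.factorial_succ]
      push_cast
      ring

lemma aI_le_tau (hK0 : 0 ≤ K) (hK : K ≤ 2) (n : ℕ) : |aI K N0 d0 n| ≤ tau n := by
  classical
  rw [abs_of_nonneg (aI_nonneg hK0 n), aI_apply]
  split_ifs
  · exact mf_le (fun p j => ek_nonneg hK0 p j) n (fun p _ => ek_le_tl hK0 hK p _)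
  · exact tau_nonneg n

lemma e_abs (hK0 : 0 ≤ K) (hK : K ≤ 2) {n : ℕ} (hn : n ≠ 0) :
    |(aI K N0 d0 * muM N0 d0 N1 d1) n| ≤ tau n ^ 2 := by
  rw [ArithmeticFunction.mul_apply,
    Nat.sum_divisorsAntidiagonal (fun i j => aI K N0 d0 i * muM N0 d0 N1 d1 j)]
  refine (abs_sum_le_sum_abs _ _).trans ?_
  have h1 : ∀ d ∈ n.divisors, |aI K N0 d0 d * muM N0 d0 N1 d1 (n / d)| ≤ tau n := by
    intro d hd
    rw [Nat.mem_divisors] at hd
    rw [abs_mul]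
    calc |aI K N0 d0 d| * |muM N0 d0 N1 d1 (n / d)| ≤ tau d * 1 :=
          mul_le_mul (aI_le_tau hK0 hK d) (muM_abs _) (abs_nonneg _) (tau_nonneg d)
      _ ≤ tau n := by rw [mul_one]; exact tau_mono hd.1 hn
  refine (sum_le_sum h1).trans ?_
  rw [sum_const, nsmul_eq_mul, ← tau_eq hn, sq]

open Classical in
/-- the untruncated exponential over the smooth numbers -/
noncomputable def ft (K : ℝ) (N0 : ℕ) : ArithmeticFunction ℝ :=
  ⟨fun n => if n ∈ Nat.smoothNumbers N0 then mf (ek K) n else 0, by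
    rw [if_neg]; intro h; exact (sm_iff.mp h).1 rfl⟩

open Classical in
lemma ft_apply (n : ℕ) : ft K N0 n = if n ∈ Nat.smoothNumbers N0 then mf (ek K) n else 0 := rfl

lemma ft_mult : (ft K N0).IsMultiplicative := by
  classical
  constructor
  · rw [ft_apply, if_pos (sm_one _), mf_one]
  · intro m n hmn
    rw [ft_apply, ft_apply, ft_apply]
    by_cases h : m * n ∈ Nat.smoothNumbers N0
    · rw [if_pos h, if_pos (sm_mul.mp h).1, if_pos (sm_mul.mp h).2, mf_mul _ hmn]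
    · rw [if_neg h]
      by_cases h1 : m ∈ Nat.smoothNumbers N0
      · rw [if_neg (fun h2 => h (sm_mul.mpr ⟨h1, h2⟩)), mul_zero]
      · rw [if_neg h1, zero_mul]

/-- the real Moebius function -/
noncomputable def muR : ArithmeticFunction ℝ :=
  ((ArithmeticFunction.moebius : ArithmeticFunction ℤ) : ArithmeticFunction ℝ)

lemma muR_apply (n : ℕ) : muR n = ((ArithmeticFunction.moebius n : ℤ) : ℝ) := rfl

/-- the convolution -/
noncomputable def eF (K : ℝ) (N0 : ℕ) : ArithmeticFunction ℝ := ft K N0 * muR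

lemma eF_mult : (eF K N0).IsMultiplicative :=
  ft_mult.mul ArithmeticFunction.isMultiplicative_moebius.intCast

lemma e_le (h01 : N0 ≤ N1) {n : ℕ} (hn : n ≠ 0) (ho : Ob 0 N0 n ≤ d0) :
    |(aI K N0 d0 * muM N0 d0 N1 d1) n| ≤ |eF K N0 n| := by
  classical
  have h1 : (aI K N0 d0 * muM N0 d0 N1 d1) n =
      if n ∈ Nat.smoothNumbers N1 ∧ Ob N0 N1 n ≤ d1 then eF K N0 n else 0 := by
    unfold eF
    rw [ArithmeticFunction.mul_apply, ArithmeticFunction.mul_apply]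
    have key : ∀ q ∈ n.divisorsAntidiagonal, aI K N0 d0 q.1 * muM N0 d0 N1 d1 q.2 =
        if n ∈ Nat.smoothNumbers N1 ∧ Ob N0 N1 n ≤ d1 then ft K N0 q.1 * muR q.2 else 0 := by
      rintro ⟨a, b⟩ hq
      rw [Nat.mem_divisorsAntidiagonal] at hq
      obtain ⟨hab, _⟩ := hq
      dsimp only at hab ⊢
      have ha0 : a ≠ 0 := left_ne_zero_of_mul (hab ▸ hn)
      have hb0 : b ≠ 0 := right_ne_zero_of_mul (hab ▸ hn)
      by_cases hs : a ∈ Nat.smoothNumbers N0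
      · have hOa : Ob 0 N0 a ≤ d0 := (Ob_le_of_dvd 0 N0 ⟨b, hab.symm⟩ hn).trans ho
        have hOb : Ob 0 N0 b ≤ d0 :=
          (Ob_le_of_dvd 0 N0 ⟨a, by rw [← hab, mul_comm]⟩ hn).trans ho
        have hO1 : Ob N0 N1 a = 0 := Ob_eq_zero fun p hp hd => by
          have := (sm_iff.mp hs).2 p hp hd
          omega
        have hO2 : Ob N0 N1 n = Ob N0 N1 b := by
          rw [← hab, Ob_mul N0 N1 ha0 hb0, hO1, zero_add]
        have hsm : n ∈ Nat.smoothNumbers N1 ↔ b ∈ Nat.smoothNumbers N1 := by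
          rw [← hab, sm_mul]
          exact ⟨fun h => h.2, fun h => ⟨sm_mono h01 hs, h⟩⟩
        rw [aI_apply, if_pos ⟨hs, hOa⟩, ft_apply, if_pos hs, muM_apply, muR_apply]
        by_cases hc : n ∈ Nat.smoothNumbers N1 ∧ Ob N0 N1 n ≤ d1
        · rw [if_pos hc, if_pos ⟨hsm.mp hc.1, hOb, hO2 ▸ hc.2⟩]
        · rw [if_neg hc, if_neg (fun h => hc ⟨hsm.mpr h.1, hO2 ▸ h.2.2⟩), mul_zero]
      · rw [aI_apply, if_neg (fun h => hs h.1), ft_apply, if_neg hs, zero_mul, zero_mul, ite_self]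
    rw [sum_congr rfl key]
    split_ifs
    · rfl
    · exact sum_const_zero
  rw [h1]
  split_ifs
  · exact le_rfl
  · rw [abs_zero]
    exact abs_nonneg _

/-- the local values -/
noncomputable def ph (K : ℝ) (N0 : ℕ) (p j : ℕ) : ℝ := eF K N0 (p ^ j) ^ 2

lemma eF_sq (n : ℕ) (hn : n ≠ 0) : eF K N0 n ^ 2 = mf (ph K N0) n := by
  rw [(eF_mult (K := K) (N0 := N0)).multiplicative_factorization _ hn]
  unfold mf ph
  rw [Finsupp.prod, ← prod_pow]
  rfl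

lemma eF_prime_pow {p : ℕ} (hp : p.Prime) (j : ℕ) :
    eF K N0 (p ^ (j + 1)) = ft K N0 (p ^ (j + 1)) - ft K N0 (p ^ j) := by
  unfold eF
  rw [mul_comm, ArithmeticFunction.mul_apply,
    Nat.sum_divisorsAntidiagonal (fun a b => muR a * ft K N0 b),
    Nat.sum_divisors_prime_pow hp]
  rw [sum_range_succ']
  rw [sum_range_succ']
  have h1 : ∑ i ∈ range j, muR (p ^ (i + 1 + 1)) * ft K N0 (p ^ (j + 1) / p ^ (i + 1 + 1)) = 0 := by
    refine sum_eq_zero fun i _ => ?_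
    rw [muR_apply, ArithmeticFunction.moebius_apply_prime_pow hp (by omega), if_neg (by omega)]
    simp
  rw [h1]
  have h2 : p ^ (j + 1) / p ^ (0 + 1) = p ^ j := by
    rw [zero_add, pow_one, pow_succ, Nat.mul_div_cancel _ hp.pos]
  rw [h2, pow_zero, Nat.div_one, zero_add, pow_one, muR_apply, muR_apply,
    ArithmeticFunction.moebius_apply_prime hp, ArithmeticFunction.moebius_apply_one]
  push_cast
  ring

lemma ft_prime_pow {p : ℕ} (hp : p.Prime) (h : p < N0) (j : ℕ) : ft K N0 (p ^ j) = K ^ j / j.factorial := by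
  classical
  rw [ft_apply, if_pos, mf_prime_pow hp (ek_zero K p)]
  · rfl
  · rw [sm_iff]
    refine ⟨pow_ne_zero j hp.ne_zero, fun q hq hd => ?_⟩
    rw [(Nat.prime_dvd_prime_iff_eq hq hp).mp (hq.dvd_of_dvd_pow hd)]
    exact h

lemma ft_prime_pow' {p : ℕ} (hp : p.Prime) (h : N0 ≤ p) (j : ℕ) : ft K N0 (p ^ (j + 1)) = 0 := by
  classical
  rw [ft_apply, if_neg]
  intro hs
  have := (sm_iff.mp hs).2 p hp (dvd_pow_self p (by omega))
  omega

lemma fact_le {K : ℝ} (hK0 : 0 ≤ K) (hK : K ≤ 2) (j : ℕ) : K ^ j / j.factorial ≤ 2 := by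
  rw [div_le_iff₀ (by positivity)]
  have h : ∀ j : ℕ, 2 ^ j ≤ 2 * j.factorial := by
    intro j
    induction j with
    | zero => simp
    | succ j ih =>
      rcases Nat.eq_zero_or_pos j with h | h
      · subst h; simp
      · rw [Nat.factorial_succ, pow_succ]
        nlinarith
  calc K ^ j ≤ 2 ^ j := pow_le_pow_left₀ hK0 hK j
    _ ≤ 2 * (j.factorial : ℝ) := by exact_mod_cast h j

end

/-- the local bound -/
lemma loc_ph {k : ℝ} (hk0 : 0 ≤ k) (hk1 : k ≤ 1) (N0 : ℕ) {p : ℕ} (hp : p.Prime) :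
    (Summable fun j : ℕ => ph (k + 1) N0 p j / (p : ℝ) ^ j) ∧
      ∑' j : ℕ, ph (k + 1) N0 p j / (p : ℝ) ^ j ≤
        Real.exp ((if p < N0 then k ^ 2 * (1 / (p:ℝ)) else 1 * (1 / (p:ℝ))) + 8 / (p:ℝ) ^ 2) := by
  have hp2 : (2:ℝ) ≤ p := by exact_mod_cast hp.two_le
  have hp0 : (0:ℝ) < p := by linarith
  have h0 : ph (k + 1) N0 p 0 = 1 := by
    unfold ph
    rw [pow_zero, eF_mult.map_one, one_pow]
  have h1 : ph (k + 1) N0 p 1 = if p < N0 then k ^ 2 else 1 := by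
    have e := eF_prime_pow (K := k + 1) (N0 := N0) hp 0
    rw [zero_add] at e
    unfold ph
    rw [e]
    split_ifs with h
    · rw [ft_prime_pow hp h, ft_prime_pow hp h]
      simp
    · have e1 := ft_prime_pow' (K := k + 1) hp (not_lt.mp h) 0
      rw [zero_add] at e1
      rw [e1, pow_zero, ft_mult.map_one]
      norm_num
  have h2 : ∀ j, ph (k + 1) N0 p (j + 2) ≤ 4 := by
    intro j
    unfold ph
    rw [show j + 2 = (j + 1) + 1 from rfl, eF_prime_pow hp]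
    by_cases h : p < N0
    · rw [ft_prime_pow hp h, ft_prime_pow hp h]
      have a1 := fact_le (K := k + 1) (by linarith) (by linarith) (j + 1 + 1)
      have a2 := fact_le (K := k + 1) (by linarith) (by linarith) (j + 1)
      have a3 : 0 ≤ (k + 1) ^ (j + 1 + 1) / ((j + 1 + 1).factorial : ℝ) := by positivity
      have a4 : 0 ≤ (k + 1) ^ (j + 1) / ((j + 1).factorial : ℝ) := by positivity
      nlinarith
    · rw [ft_prime_pow' hp (not_lt.mp h), ft_prime_pow' hp (not_lt.mp h)]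
      norm_num
  have h3 : ∀ j, 0 ≤ ph (k + 1) N0 p j := fun j => sq_nonneg _
  have e1 : ∀ j : ℕ, ph (k + 1) N0 p (j + 2) / (p : ℝ) ^ (j + 2) =
      (ph (k + 1) N0 p (j + 2) / (p : ℝ) ^ j) * (1 / (p:ℝ) ^ 2) := by
    intro j
    rw [pow_add]
    field_simp
  have e2 : ∀ j : ℕ, ph (k + 1) N0 p (j + 2) / (p : ℝ) ^ j ≤ 4 * (1 / 2 : ℝ) ^ j := by
    intro j
    calc ph (k + 1) N0 p (j + 2) / (p : ℝ) ^ j ≤ 4 / 2 ^ j :=
          div_le_div₀ (by norm_num) (h2 j) (by positivity) (pow_le_pow_left₀ (by norm_num) hp2 j)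
      _ = 4 * (1 / 2 : ℝ) ^ j := by rw [one_div, inv_pow]; ring
  have hgeo : HasSum (fun j : ℕ => 4 * (1 / 2 : ℝ) ^ j) (4 * 2) := by
    have := (hasSum_geometric_two).mul_left (4:ℝ)
    exact this
  have s1 : Summable fun j : ℕ => ph (k + 1) N0 p (j + 2) / (p : ℝ) ^ j :=
    Summable.of_nonneg_of_le (fun j => div_nonneg (h3 _) (by positivity)) e2 hgeo.summable
  have s2 : Summable fun j : ℕ => ph (k + 1) N0 p (j + 2) / (p : ℝ) ^ (j + 2) := by
    simp_rw [e1]; exact s1.mul_right _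
  have s3 : Summable fun j : ℕ => ph (k + 1) N0 p (j + 1) / (p : ℝ) ^ (j + 1) :=
    (summable_nat_add_iff 1).mp s2
  have s4 : Summable fun j : ℕ => ph (k + 1) N0 p j / (p : ℝ) ^ j := (summable_nat_add_iff 1).mp s3
  refine ⟨s4, ?_⟩
  rw [s4.tsum_eq_zero_add, s3.tsum_eq_zero_add]
  have e3 : ∑' j : ℕ, ph (k + 1) N0 p (j + 1 + 1) / (p : ℝ) ^ (j + 1 + 1) ≤ 8 / (p:ℝ) ^ 2 := by
    have : ∀ j : ℕ, ph (k + 1) N0 p (j + 1 + 1) / (p : ℝ) ^ (j + 1 + 1) =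
      (ph (k + 1) N0 p (j + 2) / (p : ℝ) ^ j) * (1 / (p:ℝ) ^ 2) := e1
    simp_rw [this]
    rw [tsum_mul_right]
    have h4 := s1.tsum_le_tsum e2 hgeo.summable
    rw [hgeo.tsum_eq] at h4
    calc (∑' j : ℕ, ph (k + 1) N0 p (j + 2) / (p : ℝ) ^ j) * (1 / (p:ℝ) ^ 2) ≤
          (4 * 2) * (1 / (p:ℝ) ^ 2) := mul_le_mul_of_nonneg_right h4 (by positivity)
      _ = 8 / (p:ℝ) ^ 2 := by ring
  have e4 : ph (k + 1) N0 p (0 + 1) / (p : ℝ) ^ (0 + 1) =
      if p < N0 then k ^ 2 * (1 / (p:ℝ)) else 1 * (1 / (p:ℝ)) := by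
    rw [zero_add, h1, pow_one]
    split_ifs <;> ring
  rw [e4, h0, pow_zero, div_one]
  have h5 := Real.add_one_le_exp
    ((if p < N0 then k ^ 2 * (1 / (p:ℝ)) else 1 * (1 / (p:ℝ))) + 8 / (p:ℝ) ^ 2)
  linarith

/-- the sum of the local bounds -/
lemma ph_bound {k : ℝ} (hk0 : 0 ≤ k) (hk1 : k ≤ 1) {N0 N : ℕ} (h : N0 ≤ N) :
    Sb N (mf (ph (k + 1) N0)) ∧ SS N (mf (ph (k + 1) N0)) ≤
      Real.exp (k ^ 2 * R1 N0 + Dl N0 N + 8 * ∑' n : ℕ, 1 / (n:ℝ) ^ 2) := by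
  have h1 := ep_bound (N := N) (c := fun p =>
      (if p < N0 then k ^ 2 * (1 / (p:ℝ)) else 1 * (1 / (p:ℝ))) + 8 / (p:ℝ) ^ 2)
    (φ := ph (k + 1) N0) (fun p => by unfold ph; rw [pow_zero, eF_mult.map_one, one_pow])
    (fun p j => sq_nonneg _) (fun p hp => (loc_ph hk0 hk1 N0 hp).1)
    (fun p hp _ => (loc_ph hk0 hk1 N0 hp).2)
  refine ⟨h1.1, h1.2.trans ?_⟩
  rw [Real.exp_le_exp, sum_add_distrib, sum_wm h, one_mul]
  have h2 : ∑ p ∈ Nat.primesBelow N, 8 / (p:ℝ) ^ 2 ≤ 8 * ∑' n : ℕ, 1 / (n:ℝ) ^ 2 := by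
    have hs : Summable fun n : ℕ => 1 / (n:ℝ) ^ 2 := Real.summable_one_div_nat_pow.mpr (by norm_num)
    have := hs.sum_le_tsum (Nat.primesBelow N) fun n _ => by positivity
    calc ∑ p ∈ Nat.primesBelow N, 8 / (p:ℝ) ^ 2 = 8 * ∑ p ∈ Nat.primesBelow N, 1 / (p:ℝ) ^ 2 := by
          rw [mul_sum]
          refine sum_congr rfl fun p _ => by ring
      _ ≤ _ := mul_le_mul_of_nonneg_left this (by norm_num)
  linarith

lemma e_sq_le {k : ℝ} {N0 d0 N1 d1 n : ℕ} (hk0 : 0 ≤ k) (hk1 : k ≤ 1) (h01 : N0 ≤ N1)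
    (hn : n ≠ 0) : ((aI (k + 1) N0 d0 * muM N0 d0 N1 d1) n) ^ 2 ≤
      mf (ph (k + 1) N0) n + rr ^ (-(d0 : ℝ)) * mf (tm 4) n := by
  have hr : 0 < rr := rr_pos
  have hr1 : 1 ≤ rr := one_le_rr
  have n1 : 0 ≤ mf (ph (k + 1) N0) n := mf_nonneg (fun p j => sq_nonneg _) n
  have n2 : 0 ≤ rr ^ (-(d0 : ℝ)) * mf (tm 4) n :=
    mul_nonneg (Real.rpow_nonneg hr.le _) (mf_nonneg (tm_nonneg 4) n)
  rw [← sq_abs]
  by_cases ho : Ob 0 N0 n ≤ d0
  · have h1 : |(aI (k + 1) N0 d0 * muM N0 d0 N1 d1) n| ^ 2 ≤ |eF (k + 1) N0 n| ^ 2 :=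
      pow_le_pow_left₀ (abs_nonneg _) (e_le h01 hn ho) 2
    rw [sq_abs (eF (k + 1) N0 n), eF_sq n hn] at h1
    linarith
  · push Not at ho
    have h1 : |(aI (k + 1) N0 d0 * muM N0 d0 N1 d1) n| ^ 2 ≤ tau n ^ 4 := by
      calc |(aI (k + 1) N0 d0 * muM N0 d0 N1 d1) n| ^ 2 ≤ (tau n ^ 2) ^ 2 :=
            pow_le_pow_left₀ (abs_nonneg _) (e_abs (by linarith) (by linarith) hn) 2
        _ = tau n ^ 4 := by ring
    have h2 := tau_pow_Ob 4 0 N0 n
    have h3 : 1 ≤ rr ^ (-(d0 : ℝ)) * rr ^ Ob 0 N0 n := by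
      rw [← Real.rpow_natCast rr (Ob 0 N0 n), ← Real.rpow_add hr]
      apply Real.one_le_rpow hr1
      have : (d0 : ℝ) ≤ (Ob 0 N0 n : ℝ) := by exact_mod_cast ho.le
      linarith
    have h4 : tau n ^ 4 ≤ rr ^ (-(d0 : ℝ)) * mf (tm 4) n := by
      calc tau n ^ 4 = 1 * tau n ^ 4 := (one_mul _).symm
        _ ≤ (rr ^ (-(d0 : ℝ)) * rr ^ Ob 0 N0 n) * tau n ^ 4 :=
            mul_le_mul_of_nonneg_right h3 (by positivity)
        _ = rr ^ (-(d0 : ℝ)) * (tau n ^ 4 * rr ^ Ob 0 N0 n) := by ring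
        _ ≤ _ := mul_le_mul_of_nonneg_left h2 (Real.rpow_nonneg hr.le _)
    linarith

/-- JOB M2. -/
theorem t_M2 (h : P_MVC) : P_M2 := by
  obtain ⟨C, hC, hR⟩ := R1_facts
  have hK4 := Km_nonneg 4
  set S2 : ℝ := ∑' n : ℕ, 1 / (n:ℝ) ^ 2 with hS2
  refine ⟨5, by norm_num, ?_⟩
  filter_upwards [hR, y2_pow 4, eventually_ge_atTop 1, ev_V 1, y01, rr_small (Km 4) C, y1_le_y2,
    ev_V (9 + 8 * Real.exp (8 * S2 + C)), y2_bd, len_le, log_y0, log_y1] with T hT h2 h3 hV h01 hrr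
    h12 hV2 hy2 hlen hl0 hl1 k hk0 hk1
  have hle : y0 T ≤ y2 T + 1 := by omega
  have hprod : ∀ t : ℝ, Dr (aI (k + 1) (y0 T) (d0 T)) (y2 T) (cl t) * MM T (cl t) =
      Dp (fun n => (((aI (k + 1) (y0 T) (d0 T) * muM (y0 T) (d0 T) (y1 T) (d1 T)) n : ℝ) : ℂ))
        (y2 T) (cl t) := by
    intro t
    unfold MM
    rw [Dr_mul (A := y0 T ^ d0 T) (B := y0 T ^ d0 T * y1 T ^ d1 T) (aI_supp (by omega))
      (muM_supp (by omega) (by omega))]
    · rfl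
    · calc y0 T ^ d0 T * (y0 T ^ d0 T * y1 T ^ d1 T) = y0 T ^ (2 * d0 T) * y1 T ^ d1 T := by
            rw [two_mul, pow_add, mul_assoc]
        _ ≤ y2 T := hlen
  simp only [hprod]
  obtain ⟨w1, w2⟩ := ph_bound hk0 hk1 hle
  obtain ⟨t1, t2⟩ := tm_bound 4 (y2 T + 1)
  have hrp : 0 ≤ rr ^ (-(d0 T : ℝ)) := Real.rpow_nonneg rr_pos.le _
  have hB : ∑ n ∈ Icc 1 (y2 T), ‖(((aI (k + 1) (y0 T) (d0 T) *
      muM (y0 T) (d0 T) (y1 T) (d1 T)) n : ℝ) : ℂ)‖ ^ 2 / (n:ℝ) ≤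
      SS (y2 T + 1) (fun n => mf (ph (k + 1) (y0 T)) n + rr ^ (-(d0 T : ℝ)) * mf (tm 4) n) := by
    refine sum_le_SS (w1.add (t1.const_mul _)) (fun n _ => ?_) fun n hn _ => ?_
    · exact add_nonneg (mf_nonneg (fun p j => sq_nonneg _) n)
        (mul_nonneg hrp (mf_nonneg (tm_nonneg 4) n))
    · refine ⟨smooth_Icc hn, ?_⟩
      rw [norm_ofReal_sq]
      rw [mem_Icc] at hn
      exact e_sq_le hk0 hk1 h01 (by omega)
  rw [SS_add w1 (t1.const_mul _), SS_const_mul] at hB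
  have hE : 1 ≤ Real.exp (k ^ 2 * V T) := Real.one_le_exp (by positivity)
  have hVK : 1 ≤ V T ^ (4:ℝ) := Real.one_le_rpow hV (by norm_num)
  have b1 : SS (y2 T + 1) (mf (ph (k + 1) (y0 T))) ≤
      Real.exp (k ^ 2 * V T) * V T ^ (4:ℝ) * Real.exp (8 * S2 + C) := by
    refine w2.trans ?_
    rw [V_rpow hV, ← Real.exp_add, ← Real.exp_add, Real.exp_le_exp]
    have e1 : k ^ 2 * R1 (y0 T) ≤ k ^ 2 * V T := mul_le_mul_of_nonneg_left hT.1 (sq_nonneg k)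
    have e2 := hT.2.2.1
    linarith
  have b2 : rr ^ (-(d0 T : ℝ)) * SS (y2 T + 1) (mf (tm 4)) ≤ 1 := by
    calc rr ^ (-(d0 T : ℝ)) * SS (y2 T + 1) (mf (tm 4)) ≤
          rr ^ (-(d0 T : ℝ)) * Real.exp (Km 4 * (V T + C)) := by
          refine mul_le_mul_of_nonneg_left (t2.trans ?_) hrp
          exact Real.exp_le_exp.mpr (mul_le_mul_of_nonneg_left hT.2.1 hK4)
      _ ≤ Real.exp (-V T) := hrr
      _ ≤ 1 := Real.exp_le_one_iff.mpr (by linarith)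
  have hA : ∀ n ∈ Icc 1 (y2 T), ‖(((aI (k + 1) (y0 T) (d0 T) *
      muM (y0 T) (d0 T) (y1 T) (d1 T)) n : ℝ) : ℂ)‖ ≤ (y2 T : ℝ) ^ 2 := by
    intro n hn
    rw [mem_Icc] at hn
    rw [Complex.norm_real, Real.norm_eq_abs]
    refine (e_abs (by linarith) (by linarith) (by omega)).trans
      (pow_le_pow_left₀ (tau_nonneg n) ?_ 2)
    rcases tau_le (n := n) with h5 | h5
    · exact h5.trans (by exact_mod_cast hn.2)
    · omega
  have h4 := mv_app h (a := fun n => (((aI (k + 1) (y0 T) (d0 T) *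
      muM (y0 T) (d0 T) (y1 T) (d1 T)) n : ℝ) : ℂ)) (Y := y2 T)
    (T := T) (A := (y2 T : ℝ) ^ 2)
    (B := Real.exp (k ^ 2 * V T) * V T ^ (4:ℝ) * Real.exp (8 * S2 + C) + 1) (by linarith) hA
    (hB.trans (add_le_add b1 b2))
  refine h4.trans ?_
  have e3 : 4 * (y2 T : ℝ) ^ 3 * ((y2 T : ℝ) ^ 2) ^ 2 ≤ T := by
    calc 4 * (y2 T : ℝ) ^ 3 * ((y2 T : ℝ) ^ 2) ^ 2 = 4 * (y2 T : ℝ) ^ 7 := by ring
      _ ≤ T := h2
  have e4 : V T ^ (5:ℝ) = V T ^ (4:ℝ) * V T := by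
    rw [show (5:ℝ) = 4 + 1 by norm_num, Real.rpow_add (by linarith), Real.rpow_one]
  rw [e4]
  have hX : 1 ≤ Real.exp (k ^ 2 * V T) * V T ^ (4:ℝ) := by nlinarith
  set X := Real.exp (k ^ 2 * V T) * V T ^ (4:ℝ) with hXd
  have hT0 : 0 ≤ T := by linarith
  have e5 : T * (V T ^ (4:ℝ) * V T) * Real.exp (k ^ 2 * V T) = T * X * V T := by
    rw [hXd]; ring
  rw [e5]
  have e6 : T * X * (9 + 8 * Real.exp (8 * S2 + C)) ≤ T * X * V T :=
    mul_le_mul_of_nonneg_left hV2 (by positivity)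
  have e7 : T ≤ T * X := by nlinarith
  nlinarith

end Pool.Agent.Q121.CD
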